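import Pool.Agent.Lib_helper52.YG.Defs

set_option autoImplicit false

namespace Pool.Agent.YG

open MeasureTheory ENNReal Set Filter Topology Pool.Agent.EPS

variable {d : ℕ}

/-- the logarithm of the density is integrable, and its integral is minus the entropy -/
theorem log_dens (α : Measure (EuclideanSpace ℝ (Fin d))) [IsProbabilityMeasure α] (h : FinE α) :
    Integrable (lg α) α ∧ ∫ x, lg α x ∂α = -ent α ∧ ∀ᵐ x ∂α, 0 < dn α x ∧ dn α x < ⊤ := by
  obtain ⟨hac, hint⟩ := h
  have e1 : ∀ x, (α.rnDeriv volume x).toReal • lg α x =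
      -Real.negMulLog ((α.rnDeriv volume x).toReal) := by
    intro x
    unfold lg dn Real.negMulLog
    rw [smul_eq_mul]
    ring
  refine ⟨?_, ?_, ?_⟩
  · rw [← integrable_rnDeriv_smul_iff hac]
    rw [funext e1]
    exact hint.neg
  · rw [← integral_rnDeriv_smul hac]
    rw [funext e1, integral_neg]
    rfl
  · have h1 := Measure.rnDeriv_pos hac
    have h2 := hac.ae_le (Measure.rnDeriv_lt_top α volume)
    filter_upwards [h1, h2] with x hx hx'
    exact ⟨hx, hx'⟩

end Pool.Agent.YG
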