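import Pool.Agent.Lib_helper52.YG.Defs

set_option autoImplicit false

namespace Pool.Agent.YG

open MeasureTheory ENNReal Set Filter Topology Pool.Agent.EPS

/-- from the family of linear inequalities to the quadratic one -/
theorem heron (x y z p q r v a b c : ℝ) (hx : 0 < x) (hy : 0 < y) (hz : 0 < z) (hp : 0 < p)
    (hq : 0 < q) (hr : 0 < r) (hv : 0 < v) (ha : 0 < a) (hb : 0 < b) (hc : 0 < c)
    (h1 : x * q = b + c) (h2 : y * p = a + c) (h3 : z * r = a + b)
    (hT : ∀ c1 c2 c3 : ℝ, Wt c1 c2 c3 → Real.log v + (1 - c1) * Real.log x +
      (1 - c2) * Real.log y + (1 - c3) * Real.log z ≤ c1 * Real.log q + c2 * Real.log p +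
        c3 * Real.log r + 2 * Real.log (Kc c1 c2 c3)) :
    x * y * z * v ≤ a * b + b * c + c * a := by
  set D : ℝ := a * b + b * c + c * a with hD
  have hab : 0 < a * b := mul_pos ha hb
  have hbc : 0 < b * c := mul_pos hb hc
  have hca : 0 < c * a := mul_pos hc ha
  have hD0 : 0 < D := by rw [hD]; linarith
  have w1 : 1 - a * (b + c) / D = b * c / D := by
    field_simp
    rw [hD]; ring
  have w2 : 1 - b * (a + c) / D = a * c / D := by
    field_simp
    rw [hD]; ring
  have w3 : 1 - c * (a + b) / D = a * b / D := by
    field_simp
    rw [hD]; ring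
  have hW : Wt (a * (b + c) / D) (b * (a + c) / D) (c * (a + b) / D) := by
    refine ⟨by positivity, ?_, by positivity, ?_, by positivity, ?_, ?_⟩
    · have : 0 < b * c / D := by positivity
      linarith
    · have : 0 < a * c / D := by positivity
      linarith
    · have : 0 < a * b / D := by positivity
      linarith
    · field_simp
      rw [hD]; ring
  have h := hT _ _ _ hW
  unfold Kc at h
  rw [Real.log_exp, w1, w2, w3] at h
  unfold Real.negMulLog at h
  have lx : Real.log q = Real.log (b + c) - Real.log x := by
    rw [← h1, Real.log_mul hx.ne' hq.ne']; ring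
  have ly : Real.log p = Real.log (a + c) - Real.log y := by
    rw [← h2, Real.log_mul hy.ne' hp.ne']; ring
  have lz : Real.log r = Real.log (a + b) - Real.log z := by
    rw [← h3, Real.log_mul hz.ne' hr.ne']; ring
  have e1 : Real.log (a * (b + c) / D) = Real.log a + Real.log (b + c) - Real.log D := by
    rw [Real.log_div (by positivity) hD0.ne', Real.log_mul ha.ne' (by positivity)]
  have e2 : Real.log (b * (a + c) / D) = Real.log b + Real.log (a + c) - Real.log D := by
    rw [Real.log_div (by positivity) hD0.ne', Real.log_mul hb.ne' (by positivity)]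
  have e3 : Real.log (c * (a + b) / D) = Real.log c + Real.log (a + b) - Real.log D := by
    rw [Real.log_div (by positivity) hD0.ne', Real.log_mul hc.ne' (by positivity)]
  have f1 : Real.log (b * c / D) = Real.log b + Real.log c - Real.log D := by
    rw [Real.log_div (by positivity) hD0.ne', Real.log_mul hb.ne' hc.ne']
  have f2 : Real.log (a * c / D) = Real.log a + Real.log c - Real.log D := by
    rw [Real.log_div (by positivity) hD0.ne', Real.log_mul ha.ne' hc.ne']
  have f3 : Real.log (a * b / D) = Real.log a + Real.log b - Real.log D := by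
    rw [Real.log_div (by positivity) hD0.ne', Real.log_mul ha.ne' hb.ne']
  rw [lx, ly, lz, e1, e2, e3, f1, f2, f3] at h
  have g1 : a * (b + c) / D = 1 - b * c / D := by linarith
  have g2 : b * (a + c) / D = 1 - a * c / D := by linarith
  have g3 : c * (a + b) / D = 1 - a * b / D := by linarith
  have gs : b * c / D + a * c / D + a * b / D = 1 := by
    field_simp
    rw [hD]; ring
  rw [g1, g2, g3] at h
  set P1 : ℝ := b * c / D with hP1
  set P2 : ℝ := a * c / D with hP2
  set P3 : ℝ := a * b / D with hP3
  have hP1' : P1 = 1 - P2 - P3 := by linarith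
  have key : Real.log v + Real.log x + Real.log y + Real.log z ≤ Real.log D := by
    rw [hP1'] at h
    nlinarith [h]
  have hlog : Real.log (x * y * z * v) ≤ Real.log D := by
    rw [Real.log_mul (by positivity) hv.ne', Real.log_mul (by positivity) hz.ne',
      Real.log_mul hx.ne' hy.ne']
    linarith
  exact (Real.log_le_log_iff (by positivity) hD0).1 hlog

end Pool.Agent.YG
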